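import Pool.Agent.X233.VM.Stm

/-! Part VM_FAM: an orthonormal family of eigenfunctions for additive characters. -/

set_option autoImplicit false

namespace Pool.Agent.X269.VM

open OnePoint Matrix

section

variable {F : Type} [Field F] [DecidableEq F] [Fintype F]

/-- functions on the pairs of points of the projective line -/
abbrev W (F : Type) [Field F] [DecidableEq F] [Fintype F] : Type :=
  EuclideanSpace ℂ (OnePoint F × OnePoint F)

/-- the action -/
noncomputable def T (g : GL (Fin 2) F) (φ : W F) : W F :=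
  WithLp.toLp 2 (fun y : OnePoint F × OnePoint F => φ (g • y.1, g • y.2))

theorem T_apply (g : GL (Fin 2) F) (φ : W F) (y : OnePoint F × OnePoint F) :
    T g φ y = φ (g • y.1, g • y.2) := rfl

theorem T_T (g h : GL (Fin 2) F) (φ : W F) : T g (T h φ) = T (h * g) φ := by
  ext y
  rw [T_apply, T_apply, T_apply]
  simp only [mul_smul]

theorem T_smul (g : GL (Fin 2) F) (c : ℂ) (φ : W F) : T g (c • φ) = c • T g φ := by
  ext y
  rfl

theorem T_sum (g : GL (Fin 2) F) {ι : Type} (s : Finset ι) (φ : ι → W F) :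
    T g (∑ i ∈ s, φ i) = ∑ i ∈ s, T g (φ i) := by
  ext y
  rw [T_apply, WithLp.ofLp_sum, WithLp.ofLp_sum, Finset.sum_apply, Finset.sum_apply]
  rfl

theorem T_one (φ : W F) : T (1 : GL (Fin 2) F) φ = φ := by
  ext y
  rw [T_apply, one_smul, one_smul]

/-- the permutation of the pairs -/
def perm (g : GL (Fin 2) F) : (OnePoint F × OnePoint F) ≃ (OnePoint F × OnePoint F) :=
  (MulAction.toPerm g).prodCongr (MulAction.toPerm g)

theorem inner_T (g : GL (Fin 2) F) (φ χ : W F) : inner ℂ (T g φ) (T g χ) = inner ℂ φ χ := by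
  rw [PiLp.inner_apply, PiLp.inner_apply]
  exact Equiv.sum_comp (perm g) (fun y => inner ℂ (φ y) (χ y))

/-- translations -/
noncomputable def tr (a : F) : GL (Fin 2) F :=
  Matrix.GeneralLinearGroup.mkOfDetNeZero !![1, a; 0, 1] (by simp [Matrix.det_fin_two_of])

/-- homotheties -/
noncomputable def ho (t : Fˣ) : GL (Fin 2) F :=
  Matrix.GeneralLinearGroup.mkOfDetNeZero !![(t : F), 0; 0, 1] (by simp [Matrix.det_fin_two_of])

theorem tr_mul (a b : F) : tr a * tr b = tr (a + b) := by
  apply Units.ext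
  change !![1, a; 0, 1] * !![1, b; 0, 1] = !![1, a + b; 0, 1]
  rw [Matrix.mul_fin_two]
  simp [add_comm]

theorem ho_tr (t : Fˣ) (b : F) : ho t * tr b = tr (t * b) * ho t := by
  apply Units.ext
  change !![(t : F), 0; 0, 1] * !![1, b; 0, 1] = !![1, t * b; 0, 1] * !![(t : F), 0; 0, 1]
  rw [Matrix.mul_fin_two, Matrix.mul_fin_two]
  simp

theorem tr_zero : tr (0 : F) = 1 := by
  apply Units.ext
  change !![(1 : F), 0; 0, 1] = 1
  exact Matrix.one_fin_two.symm

/-- the Fourier components -/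
noncomputable def comp (ψ : AddChar F ℂ) (φ : W F) : W F := ∑ a : F, ψ (-a) • T (tr a) φ

theorem tr_comp (ψ : AddChar F ℂ) (φ : W F) (b : F) : T (tr b) (comp ψ φ) = ψ b • comp ψ φ := by
  rw [comp, T_sum, Finset.smul_sum]
  rw [← Equiv.sum_comp (Equiv.addRight b)
    (fun a : F => ψ b • ψ (-a) • T (tr a) φ)]
  refine Finset.sum_congr rfl fun a _ => ?_
  rw [T_smul, T_T, tr_mul, smul_smul, Equiv.coe_addRight, ← AddChar.map_add_eq_mul]
  congr 2
  ring

theorem sum_comp' (φ : W F) : ∑ ψ : AddChar F ℂ, comp ψ φ = (Fintype.card F : ℂ) • φ := by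
  unfold comp
  rw [Finset.sum_comm]
  have h1 : ∀ a : F, ∑ ψ : AddChar F ℂ, ψ (-a) • T (tr a) φ =
      (if a = 0 then (Fintype.card F : ℂ) else 0) • T (tr a) φ := by
    intro a
    rw [← Finset.sum_smul, AddChar.sum_apply_eq_ite]
    simp only [neg_eq_zero]
  rw [Finset.sum_congr rfl (fun a _ => h1 a), Finset.sum_eq_single 0]
  · rw [if_pos rfl, tr_zero, T_one]
  · intro a _ ha
    rw [if_neg ha, zero_smul]
  · intro h
    exact absurd (Finset.mem_univ _) h

theorem comp_mem (N : Submodule ℂ (W F)) (hN : ∀ φ ∈ N, ∀ g : GL (Fin 2) F, T g φ ∈ N)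
    (ψ : AddChar F ℂ) {φ : W F} (hφ : φ ∈ N) : comp ψ φ ∈ N :=
  N.sum_mem fun a _ => N.smul_mem _ (hN φ hφ _)

/-- if all components vanish except for the trivial character then `φ` is invariant -/
theorem inv_of_comp {φ : W F} (h : ∀ ψ : AddChar F ℂ, ψ ≠ 1 → comp ψ φ = 0) (b : F) :
    T (tr b) φ = φ := by
  have h1 := sum_comp' φ
  rw [Finset.sum_eq_single (1 : AddChar F ℂ) (fun ψ _ hψ => h ψ hψ)
    (fun h => absurd (Finset.mem_univ _) h)] at h1
  have hc : (Fintype.card F : ℂ) ≠ 0 := by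
    exact_mod_cast Fintype.card_ne_zero
  have h2 : φ = (Fintype.card F : ℂ)⁻¹ • comp 1 φ := by
    rw [h1, smul_smul, inv_mul_cancel₀ hc, one_smul]
  rw [h2, T_smul, tr_comp, AddChar.one_apply, one_smul]

/-- the inversion -/
noncomputable def iv (F : Type) [Field F] [DecidableEq F] : GL (Fin 2) F :=
  Matrix.GeneralLinearGroup.mkOfDetNeZero !![(0 : F), 1; 1, 0] (by simp [Matrix.det_fin_two_of])

theorem tr_infty (a : F) : tr a • (∞ : OnePoint F) = ∞ := by
  rw [OnePoint.smul_infty_eq_self_iff]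
  rfl

theorem tr_some (a k : F) : tr a • (k : OnePoint F) = ((k + a : F) : OnePoint F) := by
  rw [OnePoint.smul_some_eq_ite]
  have e00 : (tr a) 0 0 = 1 := rfl
  have e01 : (tr a) 0 1 = a := rfl
  have e10 : (tr a) 1 0 = 0 := rfl
  have e11 : (tr a) 1 1 = 1 := rfl
  rw [e00, e01, e10, e11]
  simp

theorem iv_infty : iv F • (∞ : OnePoint F) = ((0 : F) : OnePoint F) := by
  rw [OnePoint.smul_infty_eq_ite]
  have e00 : (iv F) 0 0 = 0 := rfl
  have e10 : (iv F) 1 0 = 1 := rfl
  rw [e00, e10]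
  simp

theorem iv_some (k : F) : iv F • (k : OnePoint F) = if k = 0 then ∞ else ((k⁻¹ : F) : OnePoint F) := by
  rw [OnePoint.smul_some_eq_ite]
  have e00 : (iv F) 0 0 = 0 := rfl
  have e01 : (iv F) 0 1 = 1 := rfl
  have e10 : (iv F) 1 0 = 1 := rfl
  have e11 : (iv F) 1 1 = 0 := rfl
  rw [e00, e01, e10, e11]
  simp [div_eq_mul_inv]

/-- two-transitivity -/
theorem two_trans (P Q : OnePoint F) (h : P ≠ Q) :
    ∃ g : GL (Fin 2) F, g • ((0 : F) : OnePoint F) = P ∧ g • (∞ : OnePoint F) = Q := by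
  induction Q using OnePoint.rec with
  | infty =>
    induction P using OnePoint.rec with
    | infty => exact absurd rfl h
    | coe p =>
      refine ⟨tr p, ?_, tr_infty p⟩
      rw [tr_some, zero_add]
  | coe q =>
    induction P using OnePoint.rec with
    | infty =>
      refine ⟨tr q * iv F, ?_, ?_⟩
      · rw [mul_smul, iv_some, if_pos rfl, tr_infty]
      · rw [mul_smul, iv_infty, tr_some, zero_add]
    | coe p =>
      have hpq : p - q ≠ 0 := by
        intro h1
        exact h (by rw [sub_eq_zero.1 h1])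
      refine ⟨tr q * iv F * tr (p - q)⁻¹, ?_, ?_⟩
      · rw [mul_smul, mul_smul, tr_some, zero_add, iv_some, if_neg (inv_ne_zero hpq), inv_inv,
          tr_some, sub_add_cancel]
      · rw [mul_smul, mul_smul, tr_infty, iv_infty, tr_some, zero_add]

/-- an invariant space of alternating functions which are invariant under translations is zero -/
theorem eq_bot_of_inv (N : Submodule ℂ (W F)) (hN : ∀ φ ∈ N, ∀ g : GL (Fin 2) F, T g φ ∈ N)
    (halt : ∀ φ ∈ N, ∀ P Q, φ (P, Q) = - φ (Q, P))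
    (hinv : ∀ φ ∈ N, ∀ b : F, T (tr b) φ = φ) : N = ⊥ := by
  have key : ∀ φ ∈ N, φ (((0 : F) : OnePoint F), (∞ : OnePoint F)) = 0 := by
    intro φ hφ
    have h1 : ∀ (b : F) (y : OnePoint F × OnePoint F), φ y = φ (tr b • y.1, tr b • y.2) := by
      intro b y
      have := hinv φ hφ b
      rw [← T_apply, this]
    have h2 : ∀ (b : F) (y : OnePoint F × OnePoint F),
        φ (iv F • y.1, iv F • y.2) = φ (iv F • tr b • y.1, iv F • tr b • y.2) := by
      intro b y
      have h3 := hinv _ (hN φ hφ (iv F)) b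
      have h4 := congrArg (fun χ : W F => χ y) h3
      simp only [T_apply] at h4
      exact h4.symm
    have e1 : φ (((0 : F) : OnePoint F), (∞ : OnePoint F)) =
        φ (((1 : F) : OnePoint F), (∞ : OnePoint F)) := by
      rw [h1 1, tr_some, tr_infty, zero_add]
    have e2 : φ (((1 : F) : OnePoint F), (∞ : OnePoint F)) =
        φ ((∞ : OnePoint F), ((-1 : F) : OnePoint F)) := by
      have h5 := h2 (-1) (((1 : F) : OnePoint F), ((0 : F) : OnePoint F))
      simp only at h5
      rw [iv_some, if_neg one_ne_zero, iv_some, if_pos rfl, tr_some, tr_some, zero_add,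
        add_neg_cancel, iv_some, if_pos rfl, iv_some, if_neg (neg_ne_zero.2 one_ne_zero),
        inv_one, inv_neg, inv_one] at h5
      exact h5
    have e3 : φ ((∞ : OnePoint F), ((-1 : F) : OnePoint F)) =
        φ ((∞ : OnePoint F), ((0 : F) : OnePoint F)) := by
      rw [h1 1 (∞, ((-1 : F) : OnePoint F)), tr_some, tr_infty, neg_add_cancel]
    have e4 := halt φ hφ ((0 : F) : OnePoint F) ∞
    rw [e1, e2, e3] at e4
    have e5 : φ ((∞ : OnePoint F), ((0 : F) : OnePoint F)) = 0 := by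
      have : (2 : ℂ) * φ ((∞ : OnePoint F), ((0 : F) : OnePoint F)) = 0 := by
        linear_combination e4
      rcases mul_eq_zero.1 this with h | h
      · exact absurd h two_ne_zero
      · exact h
    rw [e1, e2, e3, e5]
  rw [eq_bot_iff]
  intro φ hφ
  rw [Submodule.mem_bot]
  ext ⟨P, Q⟩
  by_cases h : P = Q
  · subst h
    have h1 := halt φ hφ P P
    have : (2 : ℂ) * φ (P, P) = 0 := by linear_combination h1
    rcases mul_eq_zero.1 this with h | h
    · exact absurd h two_ne_zero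
    · exact h
  · obtain ⟨g, hg1, hg2⟩ := two_trans P Q h
    have h1 := key _ (hN φ hφ g)
    rw [T_apply] at h1
    simp only at h1
    rw [hg1, hg2] at h1
    exact h1

end

theorem t_FAM : Pool.Agent.X233.VM.S_FAM := by
  intro F _ _ _ N hN halt hne
  have hN' : ∀ φ ∈ N, ∀ g : GL (Fin 2) F, T g φ ∈ N := hN
  obtain ⟨φ, hφ, ψ, hψ, hc⟩ : ∃ φ ∈ N, ∃ ψ : AddChar F ℂ, ψ ≠ 1 ∧ comp ψ φ ≠ 0 := by
    by_contra hcon
    push Not at hcon
    exact hne (eq_bot_of_inv N hN' halt fun φ hφ b => inv_of_comp (fun ψ hψ => hcon φ hφ ψ hψ) b)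
  set f0 : W F := ((‖comp ψ φ‖⁻¹ : ℝ) : ℂ) • comp ψ φ with hf0
  have hnorm : ‖comp ψ φ‖ ≠ 0 := norm_ne_zero_iff.2 hc
  have h0 : inner ℂ f0 f0 = (1 : ℂ) := by
    rw [hf0, inner_smul_left, inner_smul_right, inner_self_eq_norm_sq_to_K]
    simp only [Complex.conj_ofReal, Complex.coe_algebraMap]
    rw [← Complex.ofReal_pow, ← Complex.ofReal_mul, ← Complex.ofReal_mul]
    norm_cast
    field_simp
  have hmem : f0 ∈ N := N.smul_mem _ (comp_mem N hN' ψ hφ)
  have heig : ∀ b : F, T (tr b) f0 = ψ b • f0 := by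
    intro b
    rw [hf0, T_smul, tr_comp, smul_comm]
  refine ⟨fun t => T (ho t) f0, ?_, fun t => hN' _ hmem _⟩
  have heig' : ∀ (t : Fˣ) (b : F), T (tr b) (T (ho t) f0) = ψ (t * b) • T (ho t) f0 := by
    intro t b
    rw [T_T, ho_tr, ← T_T, heig, T_smul]
  rw [orthonormal_iff_ite]
  intro s t
  split_ifs with hst
  · subst hst
    rw [inner_T, h0]
  · obtain ⟨c, hcc⟩ : ∃ c, ψ c ≠ 1 := by
      by_contra hcon
      push Not at hcon
      exact hψ (DFunLike.ext _ _ fun c => by rw [hcon c, AddChar.one_apply])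
    have hts : (t : F) - s ≠ 0 := by
      intro h
      exact hst (Units.ext (sub_eq_zero.1 h).symm)
    have h1 := inner_T (tr (c / ((t : F) - s))) (T (ho s) f0) (T (ho t) f0)
    rw [heig', heig', inner_smul_left, inner_smul_right, ← AddChar.map_neg_eq_conj, ← mul_assoc,
      ← AddChar.map_add_eq_mul] at h1
    have h2 : -(↑s * (c / ((t : F) - s))) + ↑t * (c / ((t : F) - s)) = c := by
      field_simp
      ring
    rw [h2] at h1
    have h3 : (ψ c - 1) * inner ℂ (T (ho s) f0) (T (ho t) f0) = 0 := by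
      rw [sub_mul, one_mul, h1, sub_self]
    rcases mul_eq_zero.1 h3 with h | h
    · exact absurd (sub_eq_zero.1 h) hcc
    · exact h

end Pool.Agent.X269.VM
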